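import Pool.Agent.H98.SLN.Targets

set_option autoImplicit false

open MeasureTheory ProbabilityTheory Filter Topology
open scoped ENNReal
open Pool.Agent.H95 Pool.Agent.H95.Cop
open Pool.Agent.H55.CG (pz VV Mo)
open Pool.Agent.H98.CE (pc WB HK OBJ)
open Pool.Agent.H96.Cop (ex pk Wn chargeLaw)
open Pool.Agent.H99.CE (NX)
open Pool.Agent.H98.SLN

namespace Pool.Agent.H90.SLN

private lemma lcb_aux0 (f g : ℝ → ℝ) (hf : ∀ z, HasDerivAt f (g z) z)
    (hg : ∀ z, 0 ≤ z → 0 ≤ g z) (h0 : f 0 = 0) (z : ℝ) (hz : 0 ≤ z) : 0 ≤ f z := by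
  have hm : MonotoneOn f (Set.Ici (0 : ℝ)) := by
    apply monotoneOn_of_deriv_nonneg (convex_Ici 0)
    · exact fun x _ => (hf x).continuousAt.continuousWithinAt
    · exact fun x _ => (hf x).differentiableAt.differentiableWithinAt
    · intro x hx
      rw [interior_Ici] at hx
      rw [(hf x).deriv]
      exact hg x (le_of_lt hx)
  have := hm (Set.mem_Ici.2 le_rfl) (Set.mem_Ici.2 hz) hz
  linarith

private lemma lcb_aux1 (z : ℝ) (hz : 0 ≤ z) : 0 ≤ z * Real.cosh z - Real.sinh z := by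
  refine lcb_aux0 (fun z => z * Real.cosh z - Real.sinh z) (fun z => z * Real.sinh z)
    (fun z => ?_) (fun z hz => mul_nonneg hz (Real.sinh_nonneg_iff.2 hz)) (by simp) z hz
  have h := ((hasDerivAt_id z).mul (Real.hasDerivAt_cosh z)).sub (Real.hasDerivAt_sinh z)
  have h2 : 1 * Real.cosh z + id z * Real.sinh z - Real.cosh z = z * Real.sinh z := by
    simp
  rw [h2] at h
  exact h

private lemma lcb_aux2 (z : ℝ) (hz : 0 ≤ z) :
    0 ≤ Real.sinh z - (z - z ^ 3 / 3) * Real.cosh z := by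
  refine lcb_aux0 (fun z => Real.sinh z - (z - z ^ 3 / 3) * Real.cosh z)
    (fun z => z * (z * Real.cosh z - Real.sinh z) + z ^ 3 / 3 * Real.sinh z)
    (fun z => ?_) (fun z hz => ?_) (by simp) z hz
  · have h1 : HasDerivAt (fun z : ℝ => z - z ^ 3 / 3) (1 - z ^ 2) z := by
      have h := (hasDerivAt_id z).sub ((hasDerivAt_pow 3 z).div_const 3)
      have h2 : (1 : ℝ) - ((3 : ℕ) : ℝ) * z ^ (3 - 1) / 3 = 1 - z ^ 2 := by
        norm_num
      rw [h2] at h
      exact h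
    have h := (Real.hasDerivAt_sinh z).sub (h1.mul (Real.hasDerivAt_cosh z))
    have h2 : Real.cosh z - ((1 - z ^ 2) * Real.cosh z + (z - z ^ 3 / 3) * Real.sinh z)
        = z * (z * Real.cosh z - Real.sinh z) + z ^ 3 / 3 * Real.sinh z := by ring
    rw [h2] at h
    exact h
  · exact add_nonneg (mul_nonneg hz (lcb_aux1 z hz))
      (mul_nonneg (by positivity) (Real.sinh_nonneg_iff.2 hz))

private lemma lcb_aux3 (z : ℝ) (hz : 0 ≤ z) :
    0 ≤ Real.log (Real.cosh z) - z ^ 2 / 2 + z ^ 4 / 12 := by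
  refine lcb_aux0 (fun z => Real.log (Real.cosh z) - z ^ 2 / 2 + z ^ 4 / 12)
    (fun z => Real.sinh z / Real.cosh z - z + z ^ 3 / 3)
    (fun z => ?_) (fun z hz => ?_) (by simp) z hz
  · have hc : Real.cosh z ≠ 0 := (Real.cosh_pos z).ne'
    have h := (((Real.hasDerivAt_cosh z).log hc).sub ((hasDerivAt_pow 2 z).div_const 2)).add
      ((hasDerivAt_pow 4 z).div_const 12)
    have h2 : Real.sinh z / Real.cosh z - ((2 : ℕ) : ℝ) * z ^ (2 - 1) / 2
        + ((4 : ℕ) : ℝ) * z ^ (4 - 1) / 12 = Real.sinh z / Real.cosh z - z + z ^ 3 / 3 := by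
      norm_num
      ring
    rw [h2] at h
    exact h
  · have hc := Real.cosh_pos z
    have h1 := lcb_aux2 z hz
    have h2 : z - z ^ 3 / 3 ≤ Real.sinh z / Real.cosh z := by
      rw [le_div_iff₀ hc]
      linarith
    linarith

private lemma lcb_aux4 (z : ℝ) : z ^ 2 / 2 - z ^ 4 / 12 ≤ Real.log (Real.cosh z) := by
  have h := lcb_aux3 |z| (abs_nonneg z)
  rw [Real.cosh_abs, sq_abs, ← abs_pow, abs_of_nonneg (by positivity : (0 : ℝ) ≤ z ^ 4)] at h
  linarith

theorem pf_LCB : T_LCB := by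
  intro y
  have hc : 1 ≤ Real.cosh (y / 2) := Real.one_le_cosh _
  have hp : 0 < Real.cosh (y / 2) := Real.cosh_pos _
  refine ⟨Real.log_nonneg hc, ?_, ?_, ?_⟩
  · have h := Real.log_le_log hp (Real.cosh_le_exp_half_sq (y / 2))
    rw [Real.log_exp] at h
    have h2 : (y / 2) ^ 2 / 2 = y ^ 2 / 8 := by ring
    rw [h2] at h
    exact h
  · have h := lcb_aux4 (y / 2)
    have h2 : (y / 2) ^ 2 / 2 - (y / 2) ^ 4 / 12 = y ^ 2 / 8 - y ^ 4 / 192 := by ring
    rw [h2] at h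
    exact h
  · unfold lc
    rw [Real.exp_add, Real.exp_log hp, Real.cosh_eq, mul_div_assoc', mul_add, ← Real.exp_add,
      ← Real.exp_add]
    have h1 : y / 2 + y / 2 = y := by ring
    have h2 : y / 2 + -(y / 2) = 0 := by ring
    rw [h1, h2, Real.exp_zero]
    ring

end Pool.Agent.H90.SLN
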