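import Pool.Agent.H98.SLN.Targets

set_option autoImplicit false

open MeasureTheory ProbabilityTheory Filter Topology
open scoped ENNReal
open Pool.Agent.H95 Pool.Agent.H95.Cop
open Pool.Agent.H55.CG (pz VV Mo)
open Pool.Agent.H98.CE (pc WB HK OBJ)
open Pool.Agent.H96.Cop (ex pk Wn chargeLaw)
open Pool.Agent.H99.CE (NX)
open Pool.Agent.H98.SLN

namespace Pool.Agent.H90.SLN

private lemma shr_aux1 (C Q : ℝ) (hC : 0 < C) (hQ : 0 < Q) : 2 / C - Q / C ^ 2 ≤ 1 / Q := by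
  rw [div_sub_div _ _ hC.ne' (by positivity), div_le_div_iff₀ (by positivity) hQ]
  nlinarith [mul_nonneg hC.le (sq_nonneg (Q - C))]

theorem pf_SHR : T_SHR := by
  intro ι P G p γ s C hG hp hγ hC
  rcases G.eq_empty_or_nonempty with rfl | hne
  · simp [Real.zero_rpow hγ.ne']
  obtain ⟨i0, hi0⟩ := hne
  have hS : 0 < ∑ j ∈ P, p j ^ s :=
    Finset.sum_pos (fun j hj => Real.rpow_pos_of_pos (hp j hj) s) ⟨i0, hG hi0⟩
  have hT : ∀ i ∈ G, p i ≤ ∑ j ∈ G, p j := fun i hi =>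
    Finset.single_le_sum (f := p) (fun j hj => (hp j (hG hj)).le) hi
  have hT0 : 0 ≤ (∑ j ∈ G, p j) ^ γ :=
    Real.rpow_nonneg (Finset.sum_nonneg fun j hj => (hp j (hG hj)).le) γ
  have h1 : ∀ i ∈ G, p i ^ γ * (2 / C - (∑ j ∈ P, (p j / p i) ^ s) / C ^ 2) ≤
      (∑ j ∈ G, p j) ^ γ * (p i ^ s / ∑ j ∈ P, p j ^ s) := by
    intro i hi
    have hpi := hp i (hG hi)
    have hps : 0 < p i ^ s := Real.rpow_pos_of_pos hpi s
    have hQ : ∑ j ∈ P, (p j / p i) ^ s = (∑ j ∈ P, p j ^ s) / p i ^ s := by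
      rw [Finset.sum_div]
      exact Finset.sum_congr rfl fun j hj => Real.div_rpow (hp j hj).le hpi.le s
    rw [hQ]
    have h2 := shr_aux1 C ((∑ j ∈ P, p j ^ s) / p i ^ s) hC (div_pos hS hps)
    rw [one_div_div] at h2
    have h3 : p i ^ γ ≤ (∑ j ∈ G, p j) ^ γ := Real.rpow_le_rpow hpi.le (hT i hi) hγ.le
    have h4 : 0 ≤ p i ^ s / ∑ j ∈ P, p j ^ s := (div_pos hps hS).le
    calc p i ^ γ * (2 / C - (∑ j ∈ P, p j ^ s) / p i ^ s / C ^ 2)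
        ≤ p i ^ γ * (p i ^ s / ∑ j ∈ P, p j ^ s) :=
          mul_le_mul_of_nonneg_left h2 (Real.rpow_nonneg hpi.le γ)
      _ ≤ _ := mul_le_mul_of_nonneg_right h3 h4
  calc _ ≤ ∑ i ∈ G, (∑ j ∈ G, p j) ^ γ * (p i ^ s / ∑ j ∈ P, p j ^ s) :=
        Finset.sum_le_sum h1
    _ = (∑ j ∈ G, p j) ^ γ * ((∑ i ∈ G, p i ^ s) / ∑ j ∈ P, p j ^ s) := by
        rw [← Finset.mul_sum, Finset.sum_div]
    _ ≤ (∑ j ∈ G, p j) ^ γ * 1 := by
        refine mul_le_mul_of_nonneg_left ?_ hT0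
        rw [div_le_one hS]
        exact Finset.sum_le_sum_of_subset_of_nonneg hG fun j hj _ =>
          Real.rpow_nonneg (hp j hj).le s
    _ = _ := mul_one _

end Pool.Agent.H90.SLN
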